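import Mathlib

/-!
Moments on `[0,1]` of functions holomorphic on a large disc, and vanishing of all moments.
-/

namespace Pool.Agent.P.MP_a89d6d_nt

open Complex Metric Filter Topology Finset

/-- The `j`-th moment of `g` on `[0,1]`. -/
noncomputable def mom (g : ℂ → ℂ) (j : ℕ) : ℂ := ∫ t in (0 : ℝ)..1, (t : ℂ) ^ j * g t

lemma ofReal_mem_ball {r t : ℝ} (hr : 1 < r) (ht : t ∈ Set.uIcc (0 : ℝ) 1) :
    (t : ℂ) ∈ ball (0 : ℂ) r := by
  rw [Set.uIcc_of_le zero_le_one] at ht
  rw [mem_ball_zero_iff, norm_real, Real.norm_eq_abs, abs_of_nonneg ht.1]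
  linarith [ht.2]

lemma continuousOn_ofReal {g : ℂ → ℂ} {r : ℝ} (hr : 1 < r) (hg : DifferentiableOn ℂ g (ball 0 r)) :
    ContinuousOn (fun t : ℝ => g t) (Set.uIcc (0 : ℝ) 1) :=
  hg.continuousOn.comp continuous_ofReal.continuousOn fun _ ht => ofReal_mem_ball hr ht

/-- Taylor expansion of the moments. -/
lemma exists_taylor {g : ℂ → ℂ} {r r' : ℝ} (hr : 1 < r) (hr' : r < r')
    (hg : DifferentiableOn ℂ g (ball 0 r')) : ∃ (b : ℕ → ℂ) (B : ℝ), 0 ≤ B ∧
      (∀ n, ‖b n‖ ≤ B * r⁻¹ ^ n) ∧
      ∀ j : ℕ, HasSum (fun n : ℕ => b n / (n + j + 1)) (mom g j) := by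
  have hr0 : 0 < r := by linarith
  obtain ⟨B, hB⟩ := (isCompact_sphere (0 : ℂ) r).exists_bound_of_continuousOn
    (hg.continuousOn.mono (sphere_subset_ball hr'))
  have hdc : DiffContOnCl ℂ g (ball 0 r) := by
    apply DifferentiableOn.diffContOnCl
    rw [closure_ball _ hr0.ne']
    exact hg.mono (closedBall_subset_ball hr')
  have hb : ∀ n, ‖((n.factorial : ℂ))⁻¹ * iteratedDeriv n g 0‖ ≤ |B| * r⁻¹ ^ n := by
    intro n
    have := norm_iteratedDeriv_le_of_forall_mem_sphere_norm_le n hr0 hdc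
      fun z hz => (hB z hz).trans (le_abs_self B)
    rw [norm_mul, norm_inv, Complex.norm_natCast]
    have h0 : (0 : ℝ) < n.factorial := by positivity
    calc _ ≤ (n.factorial : ℝ)⁻¹ * (n.factorial * |B| / r ^ n) := by gcongr
      _ = _ := by rw [inv_pow]; field_simp
  refine ⟨fun n => ((n.factorial : ℂ))⁻¹ * iteratedDeriv n g 0, |B|, abs_nonneg B, hb, fun j => ?_⟩
  have hgeo : Summable fun n : ℕ => |B| * r⁻¹ ^ n :=
    (summable_geometric_of_lt_one (by positivity) (inv_lt_one_of_one_lt₀ hr)).mul_left _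
  have h := intervalIntegral.hasSum_integral_of_dominated_convergence (μ := MeasureTheory.volume)
    (a := 0) (b := 1) (f := fun t : ℝ => (t : ℂ) ^ j * g t)
    (F := fun n t => ((n.factorial : ℂ))⁻¹ * iteratedDeriv n g 0 * (t : ℂ) ^ (n + j))
    (fun n _ => |B| * r⁻¹ ^ n) (fun n => Continuous.aestronglyMeasurable (by fun_prop)) (fun n => ?_) (Eventually.of_forall
      fun _ _ => hgeo) intervalIntegrable_const (Eventually.of_forall fun t ht => ?_)
  · convert! h using 2 with n
    rw [intervalIntegral.integral_const_mul]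
    have : ∫ t in (0 : ℝ)..1, (t : ℂ) ^ (n + j) = ((∫ t in (0 : ℝ)..1, t ^ (n + j) : ℝ) : ℂ) := by
      rw [← intervalIntegral.integral_ofReal]; simp
    rw [this, integral_pow]
    push_cast
    simp [div_eq_mul_inv]
  · refine Eventually.of_forall fun t ht => ?_
    rw [Set.uIoc_of_le zero_le_one] at ht
    rw [norm_mul, norm_pow, norm_real, Real.norm_eq_abs, abs_of_pos ht.1]
    exact (mul_le_of_le_one_right (norm_nonneg _) (pow_le_one₀ ht.1.le ht.2)).trans (hb n)
  · have h1 := hasSum_taylorSeries_on_ball hg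
      (ofReal_mem_ball (hr.trans hr') (Set.uIoc_subset_uIcc ht))
    convert! h1.mul_left ((t : ℂ) ^ j) using 2 with n
    simp only [smul_eq_mul, sub_zero]
    ring

/-- Moments against a Faber-type polynomial. -/
lemma moment_bound {g : ℂ → ℂ} {M r' : ℝ} (hM : 1 ≤ M) (hr' : M < r')
    (hg : DifferentiableOn ℂ g (ball 0 r')) : ∃ C₂ : ℝ, 0 ≤ C₂ ∧
      ∀ (p : ℕ) (τ : ℕ → ℂ) (A : ℝ), 0 ≤ A →
        (∀ n : ℕ, ‖∑ j ∈ range p, τ j / (n + j + 1)‖ ≤ A * (n + 1) * M ^ n) →
        ∀ d : ℕ, ‖∑ j ∈ range p, τ j * mom g (j + d)‖ ≤ C₂ * A * (d + 1) * M ^ d := by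
  set r := (M + r') / 2 with hr
  have hr1 : M < r := by linarith
  have hr0 : 0 < r := by linarith
  obtain ⟨b, B, hB0, hb, hs⟩ := exists_taylor (r := r) (by linarith) (by linarith) hg
  have hq : ‖M / r‖ < 1 := by
    rw [Real.norm_eq_abs, abs_of_pos (by positivity), div_lt_one hr0]; exact hr1
  have hsum : Summable fun n : ℕ => ((n : ℝ) + 1) * (M / r) ^ n := by
    have h1 := summable_pow_mul_geometric_of_norm_lt_one 1 hq
    have h2 := summable_geometric_of_norm_lt_one hq
    convert! h1.add h2 using 2 with n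
    ring
  refine ⟨B * ∑' n : ℕ, ((n : ℝ) + 1) * (M / r) ^ n, mul_nonneg hB0 (tsum_nonneg fun n => by
    positivity), fun p τ A hA hτ d => ?_⟩
  have h1 : HasSum (fun n : ℕ => b n * ∑ j ∈ range p, τ j / ((n + d : ℕ) + j + 1))
      (∑ j ∈ range p, τ j * mom g (j + d)) := by
    have := hasSum_sum (s := range p) fun j _ => (hs (j + d)).mul_left (τ j)
    convert! this using 2 with n
    rw [mul_sum]
    refine sum_congr rfl fun j _ => ?_
    push_cast
    ring
  have h2 := (hsum.hasSum.mul_left (B * A * (d + 1) * M ^ d))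
  refine (h1.norm_le_of_bounded h2 fun n => ?_).trans (le_of_eq (by ring))
  rw [norm_mul]
  have h3 := hτ (n + d)
  have h4 : ((n + d : ℕ) : ℝ) + 1 ≤ (n + 1) * (d + 1) := by
    push_cast
    have : (0 : ℝ) ≤ n * d := by positivity
    nlinarith
  calc _ ≤ (B * r⁻¹ ^ n) * (A * ((n + d : ℕ) + 1) * M ^ (n + d)) :=
        mul_le_mul (hb n) h3 (norm_nonneg _) (by positivity)
    _ ≤ (B * r⁻¹ ^ n) * (A * ((n + 1) * (d + 1)) * M ^ (n + d)) := by gcongr
    _ = _ := by rw [div_eq_mul_inv, mul_pow, pow_add]; ring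

lemma eq_zero_of_moments_real {f : ℝ → ℝ} (hf : ContinuousOn f (Set.Icc 0 1))
    (h : ∀ j : ℕ, ∫ t in (0 : ℝ)..1, t ^ j * f t = 0) : ∀ t ∈ Set.Ioo (0 : ℝ) 1, f t = 0 := by
  have hf' : ContinuousOn f (Set.uIcc 0 1) := by rwa [Set.uIcc_of_le zero_le_one]
  have hp : ∀ p : Polynomial ℝ, ∫ t in (0 : ℝ)..1, p.eval t * f t = 0 := by
    intro p
    induction p using Polynomial.induction_on' with
    | add p q hp hq =>
      simp only [Polynomial.eval_add, add_mul]
      rw [intervalIntegral.integral_add, hp, hq, add_zero]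
      · exact (p.continuous.continuousOn.mul hf').intervalIntegrable
      · exact (q.continuous.continuousOn.mul hf').intervalIntegrable
    | monomial n a =>
      simp only [Polynomial.eval_monomial, mul_assoc]
      rw [intervalIntegral.integral_const_mul, h, mul_zero]
  obtain ⟨B, hB⟩ := isCompact_Icc.exists_bound_of_continuousOn hf
  have hB0 : 0 ≤ B := (norm_nonneg _).trans (hB 0 (by simp))
  have h2 : ∫ t in (0 : ℝ)..1, f t * f t ≤ 0 := by
    apply le_of_forall_pos_le_add
    intro ε hε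
    obtain ⟨p, hp'⟩ := exists_polynomial_near_of_continuousOn 0 1 f hf (ε / (B + 1))
      (by positivity)
    have e1 : ∫ t in (0 : ℝ)..1, f t * f t = ∫ t in (0 : ℝ)..1, (f t - p.eval t) * f t := by
      simp only [sub_mul]
      rw [intervalIntegral.integral_sub, hp, sub_zero]
      · exact (hf'.mul hf').intervalIntegrable
      · exact (p.continuous.continuousOn.mul hf').intervalIntegrable
    have e2 := intervalIntegral.norm_integral_le_of_norm_le_const (a := 0) (b := 1)
      (f := fun t => (f t - p.eval t) * f t) (C := ε) (fun t ht => by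
        rw [Set.uIoc_of_le zero_le_one] at ht
        have ht' : t ∈ Set.Icc (0 : ℝ) 1 := Set.Ioc_subset_Icc_self ht
        have e3 := hp' t ht'
        rw [norm_mul, Real.norm_eq_abs, abs_sub_comm]
        calc _ ≤ ε / (B + 1) * (B + 1) := by
              apply mul_le_mul e3.le ((hB t ht').trans (by linarith)) (norm_nonneg _)
                (by positivity)
          _ = ε := by field_simp)
    rw [e1, zero_add]
    simpa using (le_abs_self _).trans e2
  intro t ht
  by_contra hne
  have h3 := intervalIntegral.integral_pos (f := fun t => f t * f t) zero_lt_one (hf.mul hf)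
    (fun t _ => mul_self_nonneg _) ⟨t, Set.Ioo_subset_Icc_self ht, mul_self_pos.2 hne⟩
  linarith

/-- A continuous function all of whose moments vanish is zero. -/
lemma eq_zero_of_moments {g : ℂ → ℂ} {r : ℝ} (hr : 1 < r) (hg : DifferentiableOn ℂ g (ball 0 r))
    (h : ∀ j : ℕ, mom g j = 0) : ∀ t ∈ Set.Ioo (0 : ℝ) 1, g t = 0 := by
  have hc := continuousOn_ofReal hr hg
  have hi : ∀ j : ℕ, IntervalIntegrable (fun t : ℝ => (t : ℂ) ^ j * g t) MeasureTheory.volume 0 1 :=
    fun j => (ContinuousOn.mul (by fun_prop) hc).intervalIntegrable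
  rw [Set.uIcc_of_le zero_le_one] at hc
  intro t ht
  apply Complex.ext
  · refine eq_zero_of_moments_real (f := fun t => (g t).re)
      (continuous_re.comp_continuousOn hc) (fun j => ?_) t ht
    have := reCLM.intervalIntegral_comp_comm (hi j)
    rw [show (∫ t in (0 : ℝ)..1, (t : ℂ) ^ j * g t) = 0 from h j] at this
    simpa [← ofReal_pow] using this
  · refine eq_zero_of_moments_real (f := fun t => (g t).im)
      (continuous_im.comp_continuousOn hc) (fun j => ?_) t ht
    have := imCLM.intervalIntegral_comp_comm (hi j)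
    rw [show (∫ t in (0 : ℝ)..1, (t : ℂ) ^ j * g t) = 0 from h j] at this
    simpa [← ofReal_pow] using this

end Pool.Agent.P.MP_a89d6d_nt
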