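import Mathlib

/-!
Landen iteration: holomorphic maps `φ` from the unit disc to `ℂ \ {1}` vanishing only at `0`, with
`φ'(0)` arbitrarily close to `16`, and the resulting Faber-type polynomials.
-/

namespace Pool.Agent.P.MP_a89d6d_nt

open Complex Metric Filter Topology Finset

/-- A nonvanishing holomorphic function on a disc has a holomorphic logarithm. -/
lemma exists_log {f : ℂ → ℂ} {r : ℝ} (hr : 0 < r) (hf : DifferentiableOn ℂ f (ball 0 r))
    (h0 : ∀ z ∈ ball (0 : ℂ) r, f z ≠ 0) (w : ℂ) (hw : exp w = f 0) :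
    ∃ g : ℂ → ℂ, DifferentiableOn ℂ g (ball 0 r) ∧ g 0 = w ∧ ∀ z ∈ ball (0 : ℂ) r, exp (g z) = f z := by
  have h1 : DifferentiableOn ℂ (fun z => deriv f z / f z) (ball 0 r) :=
    (hf.deriv isOpen_ball).div hf h0
  obtain ⟨g, hg0, hg⟩ := h1.isExactOn_ball.with_val_at 0 w
  have hgd : DifferentiableOn ℂ g (ball 0 r) :=
    fun z hz => (hg z hz).differentiableAt.differentiableWithinAt
  refine ⟨g, hgd, hg0, fun z hz => ?_⟩
  have h2 : ∀ z ∈ ball (0 : ℂ) r, HasDerivAt (fun z => f z * exp (-g z)) 0 z := by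
    intro z hz
    have e1 : HasDerivAt f (deriv f z) z := (hf.differentiableAt (isOpen_ball.mem_nhds hz)).hasDerivAt
    have e2 := (e1.mul ((hg z hz).neg.cexp))
    have := h0 z hz
    refine e2.congr_deriv ?_
    simp only [Pi.neg_apply]
    field_simp
    ring
  have h3 := isOpen_ball.is_const_of_deriv_eq_zero (convex_ball (0 : ℂ) r).isPreconnected
    (f := fun z => f z * exp (-g z))
    (fun z hz => (h2 z hz).differentiableAt.differentiableWithinAt)
    (fun z hz => (h2 z hz).deriv) hz (mem_ball_self hr)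
  simp only [hg0] at h3
  rw [← hw, ← exp_add, add_neg_cancel, exp_zero, exp_neg, mul_inv_eq_one₀ (exp_ne_zero _)] at h3
  exact h3.symm

/-- One Landen step `R ↦ 4 √R`. -/
lemma landen_step {η : ℂ → ℂ} {x : ℝ} (hη : DifferentiableOn ℂ η (ball 0 1)) (h0 : η 0 = x)
    (h1 : ∀ z ∈ ball (0 : ℂ) 1, z * exp (η z) ≠ 1) :
    ∃ η' : ℂ → ℂ, DifferentiableOn ℂ η' (ball 0 1) ∧ η' 0 = ((Real.log 4 + x / 2 : ℝ) : ℂ) ∧
      ∀ z ∈ ball (0 : ℂ) 1, z * exp (η' z) ≠ 1 := by
  have hsq : ∀ z ∈ ball (0 : ℂ) 1, z ^ 2 ∈ ball (0 : ℂ) 1 := by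
    intro z hz
    rw [mem_ball_zero_iff] at hz ⊢
    rw [norm_pow]
    nlinarith [norm_nonneg z]
  have hη2 : DifferentiableOn ℂ (fun z => η (z ^ 2)) (ball 0 1) :=
    hη.comp (by fun_prop) hsq
  set k : ℂ → ℂ := fun z => z * exp (η (z ^ 2) / 2) with hk
  have hkd : DifferentiableOn ℂ k (ball 0 1) := by
    apply differentiableOn_id.mul
    exact (hη2.div_const 2).cexp
  have hk2 : ∀ z ∈ ball (0 : ℂ) 1, k z ^ 2 ≠ 1 := by
    intro z hz
    have : k z ^ 2 = z ^ 2 * exp (η (z ^ 2)) := by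
      simp only [hk]
      rw [mul_pow, ← exp_nat_mul]
      congr 2
      push_cast
      ring
    rw [this]
    exact h1 _ (hsq z hz)
  have hk3 : ∀ z ∈ ball (0 : ℂ) 1, 1 + k z ≠ 0 := by
    intro z hz h
    apply hk2 z hz
    have : k z = -1 := by linear_combination h
    rw [this]; norm_num
  obtain ⟨l, hld, hl0, hl⟩ := exists_log one_pos (f := fun z => 1 + k z)
    (hkd.const_add 1) hk3 0 (by simp [hk])
  refine ⟨fun z => (Real.log 4 : ℂ) + η (z ^ 2) / 2 - 2 * l z, ?_, ?_, ?_⟩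
  · exact ((hη2.div_const 2).const_add _).sub (hld.const_mul 2)
  · simp [hl0, h0]
  · intro z hz h
    have e1 : exp ((Real.log 4 : ℂ)) = 4 := by
      rw [← ofReal_exp, Real.exp_log (by norm_num)]; norm_num
    have e2 : exp (2 * l z) = (1 + k z) ^ 2 := by
      rw [← hl z hz, ← exp_nat_mul]; norm_num
    simp only at h
    rw [exp_sub, exp_add, e1, e2] at h
    have e3 := hk3 z hz
    have e4 : 4 * k z = (1 + k z) ^ 2 := by
      field_simp at h
      simp only [hk] at h ⊢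
      linear_combination h
    apply hk2 z hz
    have e5 : (k z - 1) ^ 2 = 0 := by linear_combination -e4
    have e6 : k z = 1 := by
      have := pow_eq_zero_iff (two_ne_zero) |>.1 e5
      linear_combination this
    rw [e6]; norm_num

lemma exists_landen (n : ℕ) : ∃ η : ℂ → ℂ, DifferentiableOn ℂ η (ball 0 1) ∧
    η 0 = ((Real.log 16 * (1 - (1 / 2) ^ n) : ℝ) : ℂ) ∧ ∀ z ∈ ball (0 : ℂ) 1, z * exp (η z) ≠ 1 := by
  induction n with
  | zero =>
    refine ⟨fun _ => 0, differentiableOn_const _, by simp, fun z hz h => ?_⟩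
    rw [exp_zero, mul_one] at h
    simp [h] at hz
  | succ n ih =>
    obtain ⟨η, h1, h2, h3⟩ := ih
    obtain ⟨η', h4, h5, h6⟩ := landen_step h1 h2 h3
    refine ⟨η', h4, ?_, h6⟩
    rw [h5]
    congr 1
    have : Real.log 16 = 2 * Real.log 4 := by
      rw [show (16 : ℝ) = 4 ^ 2 by norm_num, Real.log_pow]; norm_num
    rw [this]
    ring

/-- The functions `F n = φ^{-n} (-log (1 - φ) - ∑_{i<n} φ^{i+1}/(i+1))`, extended by `0`. -/
noncomputable def tailF (φ l : ℂ → ℂ) (n : ℕ) (z : ℂ) : ℂ :=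
  (φ z)⁻¹ ^ n * (-l z - ∑ i ∈ range n, φ z ^ (i + 1) / (i + 1))

lemma tailF_rec {φ l : ℂ → ℂ} {z : ℂ} (h : φ z ≠ 0) (n p : ℕ) :
    tailF φ l n z = ∑ j ∈ range p, φ z ^ (j + 1) / (n + j + 1) + φ z ^ p * tailF φ l (n + p) z := by
  induction p with
  | zero => simp
  | succ p ih =>
    rw [ih, sum_range_succ, add_assoc]
    congr 1
    simp only [tailF]
    rw [← add_assoc n p 1, sum_range_succ]
    have e : (φ z)⁻¹ ^ (n + p + 1) * φ z ^ (n + p + 1) = 1 := by
      rw [← mul_pow, inv_mul_cancel₀ h, one_pow]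
    have e2 : (φ z)⁻¹ ^ (n + p) = φ z * (φ z)⁻¹ ^ (n + p + 1) := by
      rw [pow_succ]; field_simp
    rw [e2]
    push_cast
    linear_combination (φ z ^ (p + 1) / ((n : ℂ) + p + 1)) * e

lemma logTaylor_neg (n : ℕ) (x : ℂ) :
    logTaylor (n + 1) (-x) = -∑ i ∈ range n, x ^ (i + 1) / (i + 1) := by
  rw [logTaylor, sum_range_succ', ← sum_neg_distrib]
  simp only [Nat.cast_zero, div_zero, add_zero]
  refine sum_congr rfl fun i _ => ?_
  rw [neg_pow x]
  have : (-1 : ℂ) ^ (i + 1 + 1) * (-1) ^ (i + 1) = -1 := by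
    rw [← pow_add, show i + 1 + 1 + (i + 1) = 2 * (i + 1) + 1 by ring, pow_succ, pow_mul]
    norm_num
  push_cast
  linear_combination (x ^ (i + 1) / ((i : ℂ) + 1)) * this

lemma tailF_differentiableOn {η l : ℂ → ℂ} (hη : DifferentiableOn ℂ η (ball 0 1))
    (hl : DifferentiableOn ℂ l (ball 0 1)) (hl0 : l 0 = 0)
    (hl1 : ∀ z ∈ ball (0 : ℂ) 1, exp (l z) = 1 - z * exp (η z)) (n : ℕ) :
    DifferentiableOn ℂ (tailF (fun z => z * exp (η z)) l n) (ball 0 1) ∧
      tailF (fun z => z * exp (η z)) l n 0 = 0 := by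
  set φ : ℂ → ℂ := fun z => z * exp (η z) with hφ
  have hφd : DifferentiableOn ℂ φ (ball 0 1) := differentiableOn_id.mul hη.cexp
  have hb : ball (0 : ℂ) 1 ∈ 𝓝 (0 : ℂ) := ball_mem_nhds _ one_pos
  have hφ0 : φ 0 = 0 := by simp [hφ]
  have hz : tailF φ l n 0 = 0 := by simp [tailF, hφ0, hl0]
  refine ⟨(differentiableOn_compl_singleton_and_continuousAt_iff hb).1 ⟨?_, ?_⟩, hz⟩
  · have h1 : DifferentiableOn ℂ φ (ball 0 1 \ {0}) := hφd.mono Set.sdiff_subset
    have h2 : ∀ z ∈ ball (0 : ℂ) 1 \ {0}, φ z ≠ 0 := fun z hz =>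
      mul_ne_zero hz.2 (exp_ne_zero _)
    apply ((h1.inv h2).pow n).mul
    apply (hl.mono Set.sdiff_subset).neg.sub
    exact DifferentiableOn.fun_sum fun i _ => (h1.pow _).div_const _
  · have hφc : Tendsto φ (𝓝 0) (𝓝 0) := by
      have := (hφd.differentiableAt hb).continuousAt
      rwa [ContinuousAt, hφ0] at this
    have hlc : Tendsto l (𝓝 0) (𝓝 0) := by
      have := (hl.differentiableAt hb).continuousAt
      rwa [ContinuousAt, hl0] at this
    rw [ContinuousAt, hz]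
    have h3 : Tendsto (fun z => 2 * ‖φ z‖) (𝓝 0) (𝓝 0) := by
      simpa using hφc.norm.const_mul 2
    refine squeeze_zero_norm' ?_ h3
    have e1 : ∀ᶠ z in 𝓝 (0 : ℂ), ‖φ z‖ < 1 / 2 := by
      have := hφc.norm
      rw [norm_zero] at this
      exact this.eventually_lt_const (by norm_num)
    have e2 : ∀ᶠ z in 𝓝 (0 : ℂ), ‖l z‖ < 1 := by
      have := hlc.norm
      rw [norm_zero] at this
      exact this.eventually_lt_const (by norm_num)
    filter_upwards [e1, e2, hb] with z h1 h2 h4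
    by_cases hz0 : z = 0
    · rw [hz0, hz]; simp
    have h5 : φ z ≠ 0 := mul_ne_zero hz0 (exp_ne_zero _)
    have h6 : -l z = log (1 - φ z)⁻¹ := by
      have him : |(l z).im| < 1 := (abs_im_le_norm _).trans_lt h2
      rw [abs_lt] at him
      have := Real.pi_gt_three
      rw [← hl1 z h4, ← exp_neg, log_exp] <;> simp <;> linarith
    have h7 := norm_log_one_sub_inv_add_logTaylor_neg_le n (z := φ z) (by linarith)
    rw [logTaylor_neg, ← h6, ← sub_eq_add_neg] at h7
    have h8 : 0 < ‖φ z‖ := norm_pos_iff.2 h5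
    have h9 : (1 - ‖φ z‖)⁻¹ ≤ 2 := by
      rw [inv_le_comm₀ (by linarith) (by norm_num)]; linarith
    have h10 : ‖φ z‖ ^ (n + 1) * (1 - ‖φ z‖)⁻¹ / (n + 1) ≤ ‖φ z‖ ^ (n + 1) * 2 := by
      rw [div_le_iff₀ (by positivity)]
      have : 0 ≤ ‖φ z‖ ^ (n + 1) * 2 * n := by positivity
      have := mul_le_mul_of_nonneg_left h9 (pow_pos h8 (n + 1)).le
      nlinarith
    rw [tailF, norm_mul, norm_pow, norm_inv]
    calc _ ≤ ‖φ z‖⁻¹ ^ n * (‖φ z‖ ^ (n + 1) * 2) :=
          mul_le_mul_of_nonneg_left (h7.trans h10) (by positivity)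
      _ = 2 * ‖φ z‖ := by
          rw [inv_pow]; field_simp; ring

/-- Faber-type polynomials: for `C < 16` there are `R > C` and constants such that for each `p`
some polynomial `∑_{j ≤ p} τ j t^j` with top coefficient of size `R^(p+1)` has all its moments
on `[0,1]` bounded by `C₁ (n+1) M^n`. -/
theorem exists_faber (C : ℝ) (hC : C < 16) : ∃ R M C₁ : ℝ, C < R ∧ 1 ≤ M ∧ 0 < C₁ ∧
    ∀ p : ℕ, ∃ τ : ℕ → ℂ, τ p = 1 ∧
      ∀ n : ℕ, ‖∑ j ∈ range (p + 1), τ j / (n + j + 1)‖ * R ^ (p + 1) ≤ C₁ * (n + 1) * M ^ n := by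
  -- choose the Landen level and the radius
  have h1 : Tendsto (fun n : ℕ => Real.exp (Real.log 16 * (1 - (1 / 2 : ℝ) ^ n))) atTop (𝓝 16) := by
    have : Tendsto (fun n : ℕ => Real.log 16 * (1 - (1 / 2 : ℝ) ^ n)) atTop (𝓝 (Real.log 16)) := by
      have := (tendsto_pow_atTop_nhds_zero_of_lt_one (r := (1 / 2 : ℝ)) (by norm_num)
        (by norm_num)).const_sub 1 |>.const_mul (Real.log 16)
      simpa using this
    have := (Real.continuous_exp.tendsto _).comp this
    rwa [Real.exp_log (by norm_num)] at this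
  obtain ⟨N, hN⟩ := (h1.eventually_const_lt (show max C 1 < 16 from max_lt hC (by norm_num))).exists
  set x : ℝ := Real.log 16 * (1 - (1 / 2 : ℝ) ^ N) with hx
  obtain ⟨η, hη, hη0, hη1⟩ := exists_landen N
  rw [← hx] at hη0
  have hR0 : 0 < Real.exp x := Real.exp_pos x
  set ρ : ℝ := (max C 1 / Real.exp x + 1) / 2 with hρ
  have hq : max C 1 / Real.exp x < 1 := (div_lt_one hR0).2 hN
  have hq0 : 0 < max C 1 / Real.exp x := by positivity
  have hρ0 : 0 < ρ := by positivity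
  have hρ1 : ρ < 1 := by linarith
  have hρC : C < Real.exp x * ρ := by
    have : max C 1 / Real.exp x < ρ := by linarith
    rw [div_lt_iff₀ hR0] at this
    linarith [le_max_left C 1]
  set φ : ℂ → ℂ := fun z => z * exp (η z) with hφ
  have hφd : DifferentiableOn ℂ φ (ball 0 1) := differentiableOn_id.mul hη.cexp
  obtain ⟨l, hld, hl0, hl⟩ := exists_log one_pos (f := fun z => 1 - φ z) (hφd.const_sub 1)
    (fun z hz h => hη1 z hz (by linear_combination -h)) 0 (by simp [hφ])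
  have hsub : sphere (0 : ℂ) ρ ⊆ ball 0 1 := sphere_subset_ball hρ1
  have hsub' : closedBall (0 : ℂ) ρ ⊆ ball 0 1 := closedBall_subset_ball hρ1
  have hne : ∀ z ∈ sphere (0 : ℂ) ρ, z ≠ 0 := fun z hz h => by
    rw [h] at hz; simp at hz; linarith
  have hφne : ∀ z ∈ sphere (0 : ℂ) ρ, φ z ≠ 0 := fun z hz =>
    mul_ne_zero (hne z hz) (exp_ne_zero _)
  obtain ⟨M0, hM0⟩ := (isCompact_sphere (0 : ℂ) ρ).exists_bound_of_continuousOn
    ((hφd.continuousOn.mono hsub).inv₀ hφne)
  obtain ⟨C0, hC0⟩ := (isCompact_sphere (0 : ℂ) ρ).exists_bound_of_continuousOn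
    (hld.continuousOn.mono hsub)
  set M := max M0 1 with hM
  have hM1 : 1 ≤ M := le_max_right _ _
  have hF := tailF_differentiableOn hη hld hl0 hl
  have hFb : ∀ n, ∀ z ∈ sphere (0 : ℂ) ρ, ‖tailF φ l n z‖ ≤ (|C0| + 1) * (n + 1) * M ^ n := by
    intro n z hz
    have e1 : ‖(φ z)⁻¹‖ ≤ M := (hM0 z hz).trans (le_max_left _ _)
    have e2 : ‖l z‖ ≤ |C0| := (hC0 z hz).trans (le_abs_self _)
    rw [tailF, mul_sub, mul_sum]
    have e3 : ‖(φ z)⁻¹ ^ n * -l z‖ ≤ M ^ n * |C0| := by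
      rw [norm_mul, norm_pow, norm_neg]; gcongr
    have e4 : ∀ i ∈ range n, ‖(φ z)⁻¹ ^ n * (φ z ^ (i + 1) / (i + 1))‖ ≤ M ^ n := by
      intro i hi
      rw [mem_range] at hi
      have e5 : (φ z)⁻¹ ^ n * (φ z ^ (i + 1) / (i + 1)) = (φ z)⁻¹ ^ (n - (i + 1)) / (i + 1) := by
        have := hφne z hz
        obtain ⟨m, rfl⟩ : ∃ m, n = m + (i + 1) := ⟨n - (i + 1), by omega⟩
        rw [Nat.add_sub_cancel, pow_add, inv_pow (φ z) (i + 1)]
        field_simp
      rw [e5, norm_div, norm_pow]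
      have e6 : (1 : ℝ) ≤ ‖(i : ℂ) + 1‖ := by
        rw [← Nat.cast_succ, norm_natCast]; exact_mod_cast Nat.succ_pos i
      calc _ ≤ ‖(φ z)⁻¹‖ ^ (n - (i + 1)) := div_le_self (by positivity) e6
        _ ≤ M ^ (n - (i + 1)) := by gcongr
        _ ≤ M ^ n := pow_le_pow_right₀ hM1 (Nat.sub_le _ _)
    have e7 := (norm_sum_le _ _).trans (sum_le_card_nsmul _ _ _ e4)
    rw [card_range, nsmul_eq_mul] at e7
    have e8 : 0 ≤ M ^ n := by positivity
    have e9 : 0 ≤ |C0| * n * M ^ n := by positivity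
    calc _ ≤ M ^ n * |C0| + n * M ^ n := (norm_sub_le _ _).trans (add_le_add e3 e7)
      _ ≤ _ := by nlinarith
  refine ⟨Real.exp x * ρ, M, |C0| + 1, hρC, hM1, by positivity, fun p => ?_⟩
  -- coefficient functional
  let coef : (ℂ → ℂ) → ℂ := fun f => ∮ z in C(0, ρ), f z / z ^ (p + 2)
  have hcoef : ∀ h : ℂ → ℂ, DifferentiableOn ℂ h (ball 0 1) →
      coef (fun z => φ z ^ (p + 1) * h z) = 2 * Real.pi * I * (exp x ^ (p + 1) * h 0) := by
    intro h hh
    have e1 : DiffContOnCl ℂ (fun z => exp (η z) ^ (p + 1) * h z) (ball 0 ρ) := by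
      apply DifferentiableOn.diffContOnCl
      rw [closure_ball _ hρ0.ne']
      exact ((hη.cexp.pow _).mul hh).mono hsub'
    have e2 := e1.circleIntegral_sub_inv_smul (mem_ball_self hρ0)
    simp only [smul_eq_mul, hη0] at e2
    rw [← e2]
    apply circleIntegral.integral_congr hρ0.le
    intro z hz
    have := hne z hz
    simp only [hφ, sub_zero, mul_pow]
    field_simp
    ring
  have hint : ∀ f : ℂ → ℂ, DifferentiableOn ℂ f (ball 0 1) →
      CircleIntegrable (fun z => f z / z ^ (p + 2)) 0 ρ := by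
    intro f hf
    apply ContinuousOn.circleIntegrable hρ0.le
    exact (hf.continuousOn.mono hsub).div (by fun_prop) fun z hz => pow_ne_zero _ (hne z hz)
  have hc0 : (2 * Real.pi * I * exp x ^ (p + 1) : ℂ) ≠ 0 := by
    have := Real.pi_ne_zero
    simp [this]
  refine ⟨fun j => coef (fun z => φ z ^ (j + 1)) / (2 * Real.pi * I * exp x ^ (p + 1)), ?_,
    fun n => ?_⟩
  · have := hcoef (fun _ => 1) (differentiableOn_const _)
    simp only [mul_one] at this
    simp only [this]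
    exact div_self hc0
  · have e1 : coef (tailF φ l n) = ∑ j ∈ range (p + 1), coef (fun z => φ z ^ (j + 1)) /
        (n + j + 1) := by
      have e2 : coef (tailF φ l n) = ∮ z in C(0, ρ), (∑ j ∈ range (p + 1),
          ((n : ℂ) + j + 1)⁻¹ * (φ z ^ (j + 1) / z ^ (p + 2))) +
          (φ z ^ (p + 1) * tailF φ l (n + (p + 1)) z) / z ^ (p + 2) := by
        apply circleIntegral.integral_congr hρ0.le
        intro z hz
        simp only
        rw [tailF_rec (hφne z hz) n (p + 1), add_div, sum_div]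
        congr 1
        exact sum_congr rfl fun j _ => by ring
      have e3 := hcoef _ (hF (n + (p + 1))).1
      rw [(hF _).2, mul_zero, mul_zero] at e3
      have e4 : ∀ j ∈ range (p + 1), CircleIntegrable
          (fun z => ((n : ℂ) + j + 1)⁻¹ * (φ z ^ (j + 1) / z ^ (p + 2))) 0 ρ :=
        fun j _ => (hint _ (hφd.pow (j + 1))).const_mul _
      rw [e2, circleIntegral.integral_add, circleIntegral.integral_fun_sum e4]
      · simp only [coef] at e3 ⊢
        rw [e3, add_zero]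
        refine sum_congr rfl fun j _ => ?_
        rw [circleIntegral.integral_const_mul, div_eq_inv_mul]
      · exact CircleIntegrable.fun_sum _ e4
      · exact hint _ ((hφd.pow _).mul (hF _).1)
    have e5 : ‖coef (tailF φ l n)‖ ≤
        2 * Real.pi * ρ * ((|C0| + 1) * (n + 1) * M ^ n / ρ ^ (p + 2)) := by
      apply circleIntegral.norm_integral_le_of_norm_le_const hρ0.le
      intro z hz
      rw [norm_div, norm_pow, mem_sphere_zero_iff_norm.1 hz]
      exact div_le_div_of_nonneg_right (hFb n z hz) (by positivity)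
    have e6 : ∑ j ∈ range (p + 1), coef (fun z => φ z ^ (j + 1)) /
        (2 * Real.pi * I * exp x ^ (p + 1)) / (n + j + 1) =
        coef (tailF φ l n) / (2 * Real.pi * I * exp x ^ (p + 1)) := by
      rw [e1, sum_div]
      exact sum_congr rfl fun j _ => by ring
    rw [e6, norm_div]
    have e7 : ‖(2 * Real.pi * I * exp x ^ (p + 1) : ℂ)‖ = 2 * Real.pi * Real.exp x ^ (p + 1) := by
      simp [Complex.norm_exp, abs_of_pos Real.pi_pos]
    rw [e7]
    have := Real.pi_pos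
    calc _ ≤ 2 * Real.pi * ρ * ((|C0| + 1) * (n + 1) * M ^ n / ρ ^ (p + 2)) /
          (2 * Real.pi * Real.exp x ^ (p + 1)) * (Real.exp x * ρ) ^ (p + 1) := by gcongr
      _ = _ := by rw [mul_pow]; field_simp; ring

end Pool.Agent.P.MP_a89d6d_nt
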