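import Mathlib
import Pool.Agent.P.MP_a89d6d_nt.Landen
import Pool.Agent.P.MP_a89d6d_nt.Cauchy

/-!
An arithmetic holonomy bound for moments on `[0,1]`: sufficiently many functions holomorphic on a
large disc whose moments have common denominators at most `C ^ n`, `C < 16`, are linearly dependent
over the polynomials.
-/

namespace Pool.Agent.P.MP_a89d6d_nt

open Complex Metric Filter Topology Finset

attribute [local instance] Matrix.seminormedAddCommGroup

lemma siegel (κ D : ℕ) (hκ : 1 ≤ κ) (hD : 1 ≤ D)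
    (X : Matrix (Fin (κ * D)) (Fin (κ * (κ + 1)) × Fin D) ℤ) (B H : ℝ) (hB : 1 ≤ B) (hH : 1 ≤ H)
    (hX : ∀ j u, |(X j u : ℝ)| ≤ B * H ^ κ) :
    ∃ c : Fin (κ * (κ + 1)) × Fin D → ℤ, c ≠ 0 ∧ (∀ j, ∑ u, X j u * c u = 0) ∧
      ∀ u, |(c u : ℝ)| ≤ (κ * (κ + 1) * D : ℕ) * B * H := by
  have hκD : 0 < κ * D := Nat.mul_pos hκ hD
  obtain ⟨c, h1, h2, h3⟩ := Int.Matrix.exists_ne_zero_int_vec_norm_le X
    (by simp only [Fintype.card_fin, Fintype.card_prod]; nlinarith) (by simpa using hκD)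
  refine ⟨c, h1, fun j => congrFun h2 j, fun u => ?_⟩
  have e1 : |(c u : ℝ)| ≤ ‖c‖ := by
    have := norm_le_pi_norm c u
    rwa [Int.norm_eq_abs] at this
  simp only [Fintype.card_fin, Fintype.card_prod] at h3
  have hκ0 : (0 : ℝ) < κ := by exact_mod_cast hκ
  have hD0 : (0 : ℝ) < D := by exact_mod_cast hD
  have e2 : ((κ * D : ℕ) : ℝ) / (((κ * (κ + 1) * D : ℕ) : ℝ) - (κ * D : ℕ)) = (κ : ℝ)⁻¹ := by
    push_cast
    rw [show (κ : ℝ) * (κ + 1) * D - κ * D = κ * (κ * D) by ring]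
    field_simp
  rw [e2] at h3
  have hH' : 1 ≤ H ^ κ := one_le_pow₀ hH
  have e3 : max 1 ‖X‖ ≤ B * H ^ κ := by
    apply max_le (by nlinarith)
    rw [Matrix.norm_le_iff (by positivity)]
    intro j u
    rw [Int.norm_eq_abs]
    exact hX j u
  set n : ℝ := ((κ * (κ + 1) * D : ℕ) : ℝ) with hn
  have hn1 : 1 ≤ n := by
    rw [hn]
    exact_mod_cast Nat.mul_pos (Nat.mul_pos hκ (Nat.succ_pos κ)) hD
  have e4 : n * max 1 ‖X‖ ≤ (n * B * H) ^ κ := by
    have : n * B ≤ (n * B) ^ κ := le_self_pow₀ (by nlinarith) (by omega)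
    calc n * max 1 ‖X‖ ≤ n * (B * H ^ κ) := by gcongr
      _ = (n * B) * H ^ κ := by ring
      _ ≤ (n * B) ^ κ * H ^ κ := by gcongr
      _ = _ := by rw [← mul_pow]
  calc |(c u : ℝ)| ≤ (n * max 1 ‖X‖) ^ (κ : ℝ)⁻¹ := e1.trans h3
    _ ≤ ((n * B * H) ^ κ) ^ (κ : ℝ)⁻¹ := Real.rpow_le_rpow (by positivity) e4 (by positivity)
    _ = _ := Real.pow_rpow_inv_natCast (by positivity) (by omega)

lemma norm_mom_le {g : ℂ → ℂ} {r : ℝ} (hr : 1 < r) (hg : DifferentiableOn ℂ g (ball 0 r)) :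
    ∃ B : ℝ, ∀ j, ‖mom g j‖ ≤ B := by
  obtain ⟨B, hB⟩ := isCompact_uIcc.exists_bound_of_continuousOn (continuousOn_ofReal hr hg)
  refine ⟨B, fun j => ?_⟩
  have := intervalIntegral.norm_integral_le_of_norm_le_const (a := 0) (b := 1)
    (f := fun t : ℝ => (t : ℂ) ^ j * g t) (C := B) (fun t ht => by
      have h1 := hB t (Set.uIoc_subset_uIcc ht)
      rw [Set.uIoc_of_le zero_le_one] at ht
      rw [norm_mul, norm_pow, norm_real, Real.norm_eq_abs, abs_of_pos ht.1]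
      exact (mul_le_of_le_one_left (norm_nonneg _) (pow_le_one₀ ht.1.le ht.2)).trans h1)
  simpa [mom] using this

lemma mom_sum {U : Type} [Fintype U] {r : ℝ} (hr : 1 < r) (g : U → ℂ → ℂ)
    (hg : ∀ u, DifferentiableOn ℂ (g u) (ball 0 r)) (c : U → ℂ) (d : U → ℕ) (j : ℕ) :
    mom (fun w => ∑ u, c u * (w ^ d u * g u w)) j = ∑ u, c u * mom (g u) (j + d u) := by
  simp only [mom, mul_sum]
  rw [intervalIntegral.integral_finsetSum]
  · refine sum_congr rfl fun u _ => ?_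
    rw [← intervalIntegral.integral_const_mul]
    congr 1
    funext t
    ring
  · intro u _
    apply ContinuousOn.intervalIntegrable
    have := continuousOn_ofReal hr (hg u)
    exact ContinuousOn.mul (by fun_prop) (ContinuousOn.mul (by fun_prop)
      (ContinuousOn.mul (by fun_prop) this))

theorem holonomy (C : ℝ) (hC : C < 16) (hC1 : 1 ≤ C) : ∃ (M : ℝ) (m : ℕ), 1 ≤ M ∧
    ∀ r : ℝ, M < r → ∀ g : Fin m → ℂ → ℂ, (∀ i, DifferentiableOn ℂ (g i) (ball 0 r)) →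
    ∀ θ : ℂ, θ ≠ 0 → ∀ (c₀ : ℕ) (L : ℕ → ℕ), (∀ n, 0 < L n) → (∀ᶠ n in atTop, (L n : ℝ) ≤ C ^ n) →
    (∀ i j n, j + c₀ ≤ n → ∃ z : ℤ, (L n : ℂ) * θ * mom (g i) j = z) →
    ∃ A : Fin m → Polynomial ℂ, A ≠ 0 ∧
      ∀ t ∈ Set.Ioo (0 : ℝ) 1, ∑ i, (A i).eval (t : ℂ) * g i t = 0 := by
  obtain ⟨R, M, C₁, hR, hM, hC₁, hτ⟩ := exists_faber C hC
  have hR0 : 0 < R := by linarith
  have hq0 : 0 < C / R := by positivity
  have hq1 : C / R < 1 := (div_lt_one hR0).2 hR
  obtain ⟨κ, hκq, hκ⟩ := (((tendsto_pow_atTop_nhds_zero_of_lt_one hq0.le hq1).eventually_lt_const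
    (show (0 : ℝ) < (C ^ 3 * M)⁻¹ by positivity)).and (eventually_ge_atTop 1)).exists
  refine ⟨M, κ * (κ + 1), hM, fun r hr g hg θ hθ c₀ L hL0 hL hint => ?_⟩
  have hr1 : 1 < r := by linarith
  by_contra hcon
  simp only [not_exists, not_and] at hcon
  choose B hB using fun i => norm_mom_le hr1 (hg i)
  choose C₂ hC₂0 hC₂ using fun i => moment_bound hM hr (hg i)
  obtain ⟨B', hB'⟩ := Finite.exists_le fun i => ‖θ‖ * B i
  obtain ⟨C₃, hC₃⟩ := Finite.exists_le C₂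
  set B'' := max B' 1 with hB''
  set C₄ := max C₃ 0 with hC₄
  set y := (C / R) ^ κ * (C ^ 3 * M) with hy
  have hy0 : 0 < y := by positivity
  have hy1 : y < 1 := by
    rwa [hy, ← lt_div_iff₀ (by positivity), one_div]
  set K := C ^ (2 * c₀) * ‖θ‖ * ((κ * (κ + 1) : ℕ) : ℝ) ^ 2 * B'' * C₄ * C₁ with hK
  have hlim : Tendsto (fun D : ℕ => K * ((D : ℝ) ^ 3 * y ^ D)) atTop (𝓝 0) := by
    simpa using (tendsto_pow_const_mul_const_pow_of_abs_lt_one 3
      (show |y| < 1 by rwa [abs_of_pos hy0])).const_mul K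
  obtain ⟨n₀, hn₀⟩ := eventually_atTop.1 hL
  obtain ⟨D, hD1, hD2⟩ := ((hlim.eventually_lt_const one_pos).and
    (eventually_ge_atTop (max n₀ 1))).exists
  have hD : 1 ≤ D := le_trans (le_max_right _ _) hD2
  have hDn : n₀ ≤ D := le_trans (le_max_left _ _) hD2
  -- Siegel's lemma
  have hX : ∀ (j : Fin (κ * D)) (u : Fin (κ * (κ + 1)) × Fin D), ∃ z : ℤ,
      (L (κ * D + D + c₀) : ℂ) * θ * mom (g u.1) (j + u.2) = z :=
    fun j u => hint u.1 (j + u.2) (κ * D + D + c₀) (by have := j.2; have := u.2.2; omega)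
  choose X hX using hX
  obtain ⟨c, hc0, hc1, hc2⟩ := siegel κ D hκ hD (Matrix.of X) B'' (C ^ (2 * D + c₀))
    (le_max_right _ _) (one_le_pow₀ hC1) (fun j u => by
      have e1 : |(X j u : ℝ)| = ‖(X j u : ℂ)‖ := by simp
      rw [Matrix.of_apply, e1, ← hX, mul_assoc, norm_mul, norm_mul, Complex.norm_natCast, mul_comm]
      apply mul_le_mul _ _ (by positivity) (by positivity)
      · exact (mul_le_mul_of_nonneg_left (hB _ _) (norm_nonneg _)).trans
          ((hB' _).trans (le_max_left _ _))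
      · refine (hn₀ _ (by omega)).trans ?_
        rw [← pow_mul]
        exact pow_le_pow_right₀ hC1 (by nlinarith))
  set G : ℂ → ℂ := fun w => ∑ u : Fin (κ * (κ + 1)) × Fin D, (c u : ℂ) * (w ^ (u.2 : ℕ) * g u.1 w) with hG
  have hGd : DifferentiableOn ℂ G (ball 0 r) :=
    DifferentiableOn.fun_sum fun u _ => ((differentiableOn_id.pow _).mul (hg u.1)).const_mul _
  have hGm : ∀ j, mom G j = ∑ u : Fin (κ * (κ + 1)) × Fin D, (c u : ℂ) * mom (g u.1) (j + u.2) :=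
    fun j => mom_sum hr1 (fun u : Fin (κ * (κ + 1)) × Fin D => g u.1) (fun u => hg u.1) _ _ j
  have hex : ∃ j, mom G j ≠ 0 := by
    by_contra h
    simp only [not_exists, not_not] at h
    apply hcon (fun i => ∑ d : Fin D, Polynomial.monomial d (c (i, d) : ℂ))
    · intro h0
      apply hc0
      funext u
      have := congrArg (fun p => Polynomial.coeff p u.2) (congrFun h0 u.1)
      simp only [Polynomial.finsetSum_coeff, Polynomial.coeff_monomial, Fin.val_inj,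
        Finset.sum_ite_eq', mem_univ, if_true, Pi.zero_apply, Polynomial.coeff_zero] at this
      exact_mod_cast this
    · intro t ht
      rw [← eq_zero_of_moments hr1 hGd h t ht]
      simp only [hG, Fintype.sum_prod_type, Polynomial.eval_finsetSum, Polynomial.eval_monomial,
        sum_mul, mul_assoc]
  classical
  set p := Nat.find hex with hp
  have hp1 : mom G p ≠ 0 := Nat.find_spec hex
  have hp2 : ∀ j < p, mom G j = 0 := fun j hj => not_not.1 (Nat.find_min hex hj)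
  have hp3 : κ * D ≤ p := by
    by_contra h
    apply hp1
    have e1 := congrArg (Int.cast : ℤ → ℂ) (hc1 ⟨p, by omega⟩)
    simp only [Matrix.of_apply, Int.cast_sum, Int.cast_mul, ← hX, Int.cast_zero] at e1
    have e2 : (L (κ * D + D + c₀) : ℂ) * θ * mom G p = 0 := by
      rw [← e1, hGm, mul_sum]
      exact sum_congr rfl fun u _ => by ring
    have e3 : (L (κ * D + D + c₀) : ℂ) ≠ 0 := by exact_mod_cast (hL0 _).ne'
    exact (mul_eq_zero.1 e2).resolve_left (mul_ne_zero e3 hθ)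
  -- lower bound
  have hlow : 1 ≤ C ^ (p + D + c₀) * ‖θ‖ * ‖mom G p‖ := by
    have e1 : ∀ u : Fin (κ * (κ + 1)) × Fin D, ∃ z : ℤ, (L (p + D + c₀) : ℂ) * θ * mom (g u.1) (p + u.2) = z :=
      fun u => hint _ _ _ (by have := u.2.2; omega)
    choose Z hZ using e1
    have e2 : (L (p + D + c₀) : ℂ) * θ * mom G p = ((∑ u, c u * Z u : ℤ) : ℂ) := by
      push_cast
      rw [hGm, mul_sum]
      exact sum_congr rfl fun u _ => by rw [← hZ]; ring
    have e3 : (L (p + D + c₀) : ℂ) ≠ 0 := by exact_mod_cast (hL0 _).ne'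
    have e4 : (∑ u, c u * Z u : ℤ) ≠ 0 := by
      intro h
      rw [h, Int.cast_zero] at e2
      exact mul_ne_zero (mul_ne_zero e3 hθ) hp1 e2
    have e5 : (1 : ℝ) ≤ ‖((∑ u, c u * Z u : ℤ) : ℂ)‖ := by
      rw [Complex.norm_intCast]
      exact_mod_cast Int.one_le_abs e4
    rw [← e2, norm_mul, norm_mul, Complex.norm_natCast] at e5
    refine e5.trans ?_
    gcongr
    exact hn₀ _ (by omega)
  -- upper bound
  obtain ⟨τ, hτ1, hτ2⟩ := hτ p
  have hup : ‖mom G p‖ ≤ (κ * (κ + 1) * D : ℕ) * (((κ * (κ + 1) * D : ℕ) * B'' * C ^ (2 * D + c₀)) *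
      (C₄ * (C₁ / R ^ (p + 1)) * D * M ^ D)) := by
    have e1 : mom G p = ∑ u : Fin (κ * (κ + 1)) × Fin D, (c u : ℂ) *
        ∑ j ∈ range (p + 1), τ j * mom (g u.1) (j + u.2) := by
      have e2 : mom G p = ∑ j ∈ range (p + 1), τ j * mom G j := by
        rw [sum_range_succ, hτ1, one_mul, sum_eq_zero, zero_add]
        intro j hj
        rw [hp2 j (mem_range.1 hj), mul_zero]
      rw [e2]
      simp only [hGm, mul_sum]
      rw [sum_comm]
      exact sum_congr rfl fun u _ => sum_congr rfl fun j _ => by ring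
    rw [e1]
    refine (norm_sum_le _ _).trans ((sum_le_card_nsmul _ _ _ fun u _ => ?_).trans
      (le_of_eq (by rw [nsmul_eq_mul, card_univ, Fintype.card_prod, Fintype.card_fin,
        Fintype.card_fin])))
    rw [norm_mul, Complex.norm_intCast]
    apply mul_le_mul (hc2 u) _ (norm_nonneg _) (by positivity)
    refine (hC₂ u.1 (p + 1) τ (C₁ / R ^ (p + 1)) (by positivity) (fun n => ?_) u.2).trans ?_
    · have := hτ2 n
      rw [← le_div_iff₀ (by positivity)] at this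
      exact this.trans (le_of_eq (by ring))
    · have e3 : ((u.2 : ℕ) : ℝ) + 1 ≤ D := by exact_mod_cast u.2.2
      have e4 : C₂ u.1 ≤ C₄ := (hC₃ _).trans (le_max_left _ _)
      have e5 : M ^ (u.2 : ℕ) ≤ M ^ D := pow_le_pow_right₀ hM u.2.2.le
      have e6 : 0 ≤ C₄ := le_max_right _ _
      gcongr
  have e7 : C ^ p / R ^ (p + 1) ≤ ((C / R) ^ κ) ^ D := by
    calc C ^ p / R ^ (p + 1) ≤ C ^ p / R ^ p := by
          apply div_le_div_of_nonneg_left (by positivity) (by positivity)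
          exact pow_le_pow_right₀ (by linarith) (Nat.le_succ p)
      _ = (C / R) ^ p := (div_pow _ _ _).symm
      _ ≤ (C / R) ^ (κ * D) := pow_le_pow_of_le_one hq0.le hq1.le hp3
      _ = _ := pow_mul _ _ _
  have e6 : 0 ≤ C₄ := le_max_right _ _
  have e8 : 0 ≤ B'' := le_trans zero_le_one (le_max_right _ _)
  have e9 : C ^ (p + D + c₀) * ‖θ‖ * ‖mom G p‖ ≤ K * ((D : ℝ) ^ 3 * y ^ D) := by
    calc _ ≤ C ^ (p + D + c₀) * ‖θ‖ * ((κ * (κ + 1) * D : ℕ) * (((κ * (κ + 1) * D : ℕ) * B'' * C ^ (2 * D + c₀)) *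
          (C₄ * (C₁ / R ^ (p + 1)) * D * M ^ D))) := by gcongr
      _ = K * ((D : ℝ) ^ 3 * ((C ^ p / R ^ (p + 1)) * (C ^ 3 * M) ^ D)) := by
          rw [hK]; push_cast; ring
      _ ≤ K * ((D : ℝ) ^ 3 * (((C / R) ^ κ) ^ D * (C ^ 3 * M) ^ D)) := by
          have : 0 ≤ K := by positivity
          gcongr
      _ = _ := by rw [hy, mul_pow ((C / R) ^ κ)]
  linarith

end Pool.Agent.P.MP_a89d6d_nt
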