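import Mathlib
import Pool.Agent.P.MP_a89d6d_nt.Cauchy

/-!
Integrals of polynomials against derivatives of `1 / sin (π t)` on `[0,1]` as linear forms in the
numbers `(2^k - 1) ζ(k) / (2π)^k`, `k` odd.
-/

namespace Pool.Agent.P.MP_a89d6d_nt

open Complex Metric Filter Topology Finset Polynomial

/-- The numbers `(2^k - 1) ζ(k) / (2π)^k`. -/
noncomputable def ck (k : ℕ) : ℂ := (2 ^ k - 1) * riemannZeta k / (2 * Real.pi) ^ k

lemma hasSum_ck {k : ℕ} (hk : 1 < k) :
    HasSum (fun r : ℕ => 1 / (((2 * r + 1 : ℕ) : ℂ) * Real.pi) ^ k) (ck k) := by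
  have hs : Summable fun n : ℕ => 1 / (n : ℂ) ^ k := by
    apply Summable.of_norm
    simpa using Real.summable_nat_pow_inv.2 hk
  have h1 : HasSum (fun n : ℕ => 1 / (n : ℂ) ^ k) (riemannZeta k) := by
    rw [zeta_nat_eq_tsum_of_gt_one hk]; exact hs.hasSum
  have h2 : HasSum (fun n : ℕ => 1 / ((2 * n : ℕ) : ℂ) ^ k) (1 / 2 ^ k * riemannZeta k) := by
    convert! h1.mul_left (1 / 2 ^ k) using 2 with n
    push_cast
    rw [mul_pow, one_div_mul_one_div]
  have h3 : Summable fun n : ℕ => 1 / ((2 * n + 1 : ℕ) : ℂ) ^ k :=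
    hs.comp_injective (i := fun n => 2 * n + 1) fun a b h => by simpa using h
  have h4 := h1.unique (HasSum.even_add_odd (f := fun n : ℕ => 1 / (n : ℂ) ^ k) h2 h3.hasSum)
  have hpi : (Real.pi : ℂ) ≠ 0 := ofReal_ne_zero.2 Real.pi_ne_zero
  convert! h3.hasSum.mul_right (1 / (Real.pi : ℂ) ^ k) using 1
  · funext r
    rw [mul_pow, one_div_mul_one_div]
  · rw [ck, mul_pow, eq_sub_of_add_eq' h4.symm]
    field_simp

lemma hasDerivAt_ev (P : ℤ[X]) (w : ℂ) :
    HasDerivAt (fun w : ℂ => aeval w P) (aeval w (derivative P)) w :=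
  Polynomial.hasDerivAt_aeval P w

lemma continuous_ev (P : ℤ[X]) : Continuous fun w : ℂ => aeval w P :=
  continuous_iff_continuousAt.2 fun w => (hasDerivAt_ev P w).continuousAt

/-- Fundamental theorem of calculus along `[0,1]` for a function holomorphic near it. -/
lemma ftc {f f' : ℂ → ℂ} (h : ∀ t ∈ Set.uIcc (0 : ℝ) 1, HasDerivAt f (f' t) t)
    (hc : ContinuousOn (fun t : ℝ => f' t) (Set.uIcc 0 1)) :
    ∫ t in (0 : ℝ)..1, f' t = f 1 - f 0 := by
  have := intervalIntegral.integral_eq_sub_of_hasDerivAt (f := fun t : ℝ => f t)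
    (f' := fun t : ℝ => f' t) (fun t ht => (h t ht).comp_ofReal) hc.intervalIntegrable
  simpa using this

lemma sin_moment (r N : ℕ) (P : ℤ[X]) (hP : derivative^[2 * N] P = 0) :
    ∫ t in (0 : ℝ)..1, aeval (t : ℂ) P * sin (((2 * r + 1 : ℕ) : ℂ) * Real.pi * t) =
      ∑ i ∈ range N, (-1) ^ i * (aeval (0 : ℂ) (derivative^[2 * i] P) +
        aeval (1 : ℂ) (derivative^[2 * i] P)) * (1 / (((2 * r + 1 : ℕ) : ℂ) * Real.pi) ^ (2 * i + 1)) := by
  set c : ℂ := ((2 * r + 1 : ℕ) : ℂ) * Real.pi with hc
  have hc0 : c ≠ 0 := mul_ne_zero (by exact_mod_cast (by omega : 2 * r + 1 ≠ 0))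
    (ofReal_ne_zero.2 Real.pi_ne_zero)
  have hsin : sin c = 0 := by rw [hc]; exact sin_nat_mul_pi _
  have hcos : cos c = -1 := by
    rw [hc]; push_cast
    rw [show (2 * (r : ℂ) + 1) * Real.pi = r * (2 * Real.pi) + Real.pi by ring]
    exact cos_nat_mul_two_pi_add_pi r
  induction N generalizing P with
  | zero =>
    simp only [mul_zero, Function.iterate_zero, id_eq] at hP
    simp [hP]
  | succ N ih =>
    have h1 := ih (derivative (derivative P)) (by
      rw [← hP, show 2 * (N + 1) = 2 * N + 1 + 1 by ring]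
      simp only [Function.iterate_succ_apply])
    have h2 := ftc (f := fun w => -(aeval w P * cos (c * w)) / c +
        aeval w (derivative P) * sin (c * w) / c ^ 2)
      (f' := fun w => aeval w P * sin (c * w) +
        (1 / c ^ 2) * (aeval w (derivative (derivative P)) * sin (c * w)))
      (fun t _ => by
        have e1 := ((hasDerivAt_ev P t).mul ((hasDerivAt_id (t : ℂ)).const_mul c).ccos).neg.div_const c
        have e2 := ((hasDerivAt_ev (derivative P) t).mul
          ((hasDerivAt_id (t : ℂ)).const_mul c).csin).div_const (c ^ 2)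
        refine (e1.add e2).congr_deriv ?_
        simp only [id]
        field_simp
        ring)
      (by
        have := continuous_ev P
        have := continuous_ev (derivative (derivative P))
        fun_prop)
    have i1 : IntervalIntegrable (fun t : ℝ => aeval (t : ℂ) P * sin (c * t))
        MeasureTheory.volume 0 1 := by
      have := continuous_ev P
      exact Continuous.intervalIntegrable (by fun_prop) _ _
    have i2 : IntervalIntegrable (fun t : ℝ => (1 / c ^ 2) *
        (aeval (t : ℂ) (derivative (derivative P)) * sin (c * t))) MeasureTheory.volume 0 1 := by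
      have := continuous_ev (derivative (derivative P))
      exact Continuous.intervalIntegrable (by fun_prop) _ _
    rw [intervalIntegral.integral_add i1 i2, intervalIntegral.integral_const_mul, h1] at h2
    rw [sum_range_succ', eq_sub_of_add_eq h2, mul_sum]
    simp only [mul_one, mul_zero, hsin, hcos, sin_zero, cos_zero, Function.iterate_zero, id_eq,
      pow_zero, zero_add, pow_one]
    rw [sub_eq_add_neg _ (∑ i ∈ range N, _), ← sum_neg_distrib, add_comm]
    congr 1
    · refine sum_congr rfl fun i _ => ?_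
      rw [show 2 * (i + 1) = 2 * i + 1 + 1 by ring]
      simp only [Function.iterate_succ_apply]
      field_simp
      ring
    · field_simp
      ring

lemma sin_mul_sum (x : ℂ) (n : ℕ) :
    sin x * (2 * ∑ r ∈ range n, sin (((2 * r + 1 : ℕ) : ℂ) * x)) = 1 - cos (2 * n * x) := by
  induction n with
  | zero => simp
  | succ n ih =>
    rw [sum_range_succ, mul_add, mul_add, ih]
    have e1 : (2 * ((n + 1 : ℕ) : ℂ) * x) = ((2 * n + 1 : ℕ) : ℂ) * x + x := by push_cast; ring
    have e2 : (2 * (n : ℂ) * x) = ((2 * n + 1 : ℕ) : ℂ) * x - x := by push_cast; ring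
    rw [e1, e2, cos_add, cos_sub]
    ring

lemma tendsto_cos_moment {h : ℂ → ℂ} {r : ℝ} (hr : 1 < r) (hh : DifferentiableOn ℂ h (ball 0 r)) :
    Tendsto (fun n : ℕ => ∫ t in (0 : ℝ)..1, h t * cos (2 * n * (Real.pi * t))) atTop (𝓝 0) := by
  have hd := hh.deriv isOpen_ball
  have c1 := continuousOn_ofReal hr hh
  have c2 := continuousOn_ofReal hr hd
  obtain ⟨B, hB⟩ := isCompact_uIcc.exists_bound_of_continuousOn c2
  refine squeeze_zero_norm' ?_ (tendsto_const_div_atTop_nhds_zero_nat B)
  filter_upwards [eventually_ge_atTop 1] with n hn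
  have hn0 : (0 : ℝ) < n := by exact_mod_cast hn
  set c : ℂ := 2 * n * Real.pi with hc
  have hc0 : c ≠ 0 := by
    rw [hc]
    have := Real.pi_ne_zero
    have : n ≠ 0 := by omega
    simp [*]
  have h2 := ftc (f := fun w => h w * sin (c * w) / c)
    (f' := fun w => h w * cos (2 * n * (Real.pi * w)) + deriv h w * sin (c * w) / c)
    (fun t ht => by
      have e0 := (hh.differentiableAt (isOpen_ball.mem_nhds (ofReal_mem_ball hr ht))).hasDerivAt
      have e1 := (e0.mul ((hasDerivAt_id (t : ℂ)).const_mul c).csin).div_const c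
      refine e1.congr_deriv ?_
      simp only [id, ← mul_assoc, ← hc]
      field_simp
      ring)
    ((c1.mul (by fun_prop)).add ((c2.mul (by fun_prop)).div_const _))
  have hs : sin c = 0 := by
    rw [hc, show (2 * n : ℂ) = ((2 * n : ℕ) : ℂ) by push_cast; ring]; exact sin_nat_mul_pi _
  have i1 : IntervalIntegrable (fun t : ℝ => h t * cos (2 * n * (Real.pi * t)))
      MeasureTheory.volume 0 1 := (c1.mul (by fun_prop)).intervalIntegrable
  have i2 : IntervalIntegrable (fun t : ℝ => deriv h t * sin (c * t) / c)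
      MeasureTheory.volume 0 1 := ((c2.mul (by fun_prop)).div_const _).intervalIntegrable
  rw [intervalIntegral.integral_add i1 i2] at h2
  simp only [mul_one, mul_zero, hs, sin_zero, zero_div, sub_zero] at h2
  rw [eq_neg_of_add_eq_zero_left h2, norm_neg]
  have h3 := intervalIntegral.norm_integral_le_of_norm_le_const (a := 0) (b := 1)
    (f := fun t : ℝ => deriv h t * sin (c * t) / c) (C := B / n) (fun t ht => by
      have e1 := hB t (Set.uIoc_subset_uIcc ht)
      have e2 : ‖sin (c * t)‖ ≤ 1 := by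
        rw [show c * t = ((2 * n * Real.pi * t : ℝ) : ℂ) by rw [hc]; push_cast; ring, ← ofReal_sin,
          norm_real]
        exact Real.abs_sin_le_one _
      have e3 : (n : ℝ) ≤ ‖c‖ := by
        rw [show c = ((2 * n * Real.pi : ℝ) : ℂ) by rw [hc]; push_cast; ring, norm_real,
          Real.norm_eq_abs, abs_of_pos (by positivity)]
        nlinarith [Real.pi_gt_three]
      rw [norm_div, norm_mul]
      exact div_le_div₀ ((norm_nonneg _).trans e1)
        ((mul_le_of_le_one_right (norm_nonneg _) e2).trans e1) hn0 e3)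
  simpa using h3

/-- The basic formula for `∫₀¹ P(t) / sin (π t) dt`, written with `h = P / sin (π ·)`. -/
lemma integral_div_sin {h : ℂ → ℂ} {r : ℝ} (hr : 1 < r) (hh : DifferentiableOn ℂ h (ball 0 r))
    (P : ℤ[X]) (hP : ∀ w ∈ ball (0 : ℂ) r, sin (Real.pi * w) * h w = aeval w P) (N : ℕ)
    (hN : derivative^[2 * N] P = 0) :
    ∫ t in (0 : ℝ)..1, h t = 2 * ∑ i ∈ range N, (-1) ^ i * (aeval (0 : ℂ) (derivative^[2 * i] P) +
        aeval (1 : ℂ) (derivative^[2 * i] P)) * ck (2 * i + 1) := by
  have c1 := continuousOn_ofReal hr hh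
  have h0 : aeval (0 : ℂ) P = 0 := by
    rw [← hP 0 (mem_ball_self (by linarith))]; simp
  have h1 : aeval (1 : ℂ) P = 0 := by
    rw [← hP 1 (by simpa using hr)]; simp
  have t1 := (tendsto_cos_moment hr hh).const_sub (∫ t in (0 : ℝ)..1, h t)
  rw [sub_zero] at t1
  have t2 : Tendsto (fun n : ℕ => 2 * ∑ i ∈ range N, (-1) ^ i *
      (aeval (0 : ℂ) (derivative^[2 * i] P) + aeval (1 : ℂ) (derivative^[2 * i] P)) *
      ∑ r ∈ range n, 1 / (((2 * r + 1 : ℕ) : ℂ) * Real.pi) ^ (2 * i + 1)) atTop
      (𝓝 (2 * ∑ i ∈ range N, (-1) ^ i * (aeval (0 : ℂ) (derivative^[2 * i] P) +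
        aeval (1 : ℂ) (derivative^[2 * i] P)) * ck (2 * i + 1))) := by
    refine (tendsto_finsetSum _ fun i _ => ?_).const_mul _
    rcases Nat.eq_zero_or_pos i with rfl | hi
    · simp [h0, h1]
    · exact (hasSum_ck (by omega)).tendsto_sum_nat.const_mul _
  refine tendsto_nhds_unique t1 (t2.congr fun n => ?_)
  have e1 : ∀ r : ℕ, IntervalIntegrable (fun t : ℝ => aeval (t : ℂ) P *
      sin (((2 * r + 1 : ℕ) : ℂ) * Real.pi * t)) MeasureTheory.volume 0 1 := fun r => by
    have := continuous_ev P
    exact Continuous.intervalIntegrable (by fun_prop) _ _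
  have i1 : IntervalIntegrable (fun t : ℝ => h t * cos (2 * n * (Real.pi * t)))
      MeasureTheory.volume 0 1 := (c1.mul (by fun_prop)).intervalIntegrable
  simp only [mul_sum]
  rw [sum_comm]
  simp only [← mul_sum, ← sin_moment _ N P hN]
  rw [← intervalIntegral.integral_finsetSum fun r _ => e1 r, ← intervalIntegral.integral_const_mul,
    ← intervalIntegral.integral_sub c1.intervalIntegrable i1]
  refine intervalIntegral.integral_congr fun t ht => ?_
  have e2 := sin_mul_sum (Real.pi * t) n
  simp only [← mul_sum, ← hP _ (ofReal_mem_ball hr ht), mul_assoc] at e2 ⊢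
  linear_combination h t * e2

/-- `W a = sin^{a+1}(π w) · (d/dw)^a (1 / sin (π w))`. -/
noncomputable def W : ℕ → ℂ → ℂ
  | 0 => fun _ => 1
  | a + 1 => fun w => sin (Real.pi * w) * deriv (W a) w -
      (a + 1) * (Real.pi * cos (Real.pi * w)) * W a w

lemma W_differentiable (a : ℕ) : Differentiable ℂ (W a) := by
  induction a with
  | zero => exact differentiable_const _
  | succ a ih =>
    have : Differentiable ℂ (deriv (W a)) :=
      differentiableOn_univ.1 (ih.differentiableOn.deriv isOpen_univ)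
    simp only [W]
    fun_prop

lemma W_ne_zero (a : ℕ) {w : ℂ} (hw : sin (Real.pi * w) = 0) : W a w ≠ 0 := by
  have hc : cos (Real.pi * w) ≠ 0 := by
    intro h
    have := sin_sq_add_cos_sq (Real.pi * w)
    simp [h, hw] at this
  induction a with
  | zero => simp [W]
  | succ a ih =>
    simp only [W, hw, zero_mul, zero_sub, ne_eq, neg_eq_zero]
    exact mul_ne_zero (mul_ne_zero (by exact_mod_cast Nat.succ_ne_zero a)
      (mul_ne_zero (ofReal_ne_zero.2 Real.pi_ne_zero) hc)) ih

lemma indep (a₀ m : ℕ) (A : ℕ → ℂ[X])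
    (h : ∀ w : ℂ, ∑ i ∈ range m, (A i).eval w * sin (Real.pi * w) ^ (m - 1 - i) * W (a₀ + i) w = 0) :
    ∀ i < m, A i = 0 := by
  induction m with
  | zero => simp
  | succ m ih =>
    have key : ∀ w : ℂ, sin (Real.pi * w) * ∑ i ∈ range m, (A i).eval w *
        sin (Real.pi * w) ^ (m - 1 - i) * W (a₀ + i) w + (A m).eval w * W (a₀ + m) w = 0 := by
      intro w
      rw [← h w, sum_range_succ, mul_sum]
      congr 1
      · refine sum_congr rfl fun i hi => ?_
        rw [mem_range] at hi
        rw [show m + 1 - 1 - i = m - 1 - i + 1 by omega]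
        ring
      · simp
    have h1 : A m = 0 := by
      apply eq_zero_of_infinite_isRoot
      refine Set.Infinite.mono ?_ (Set.infinite_range_of_injective (Nat.cast_injective (R := ℂ)))
      rintro _ ⟨n, rfl⟩
      have hs : sin (Real.pi * (n : ℂ)) = 0 := by rw [mul_comm]; exact sin_nat_mul_pi n
      have := key n
      rw [hs, zero_mul, zero_add] at this
      exact (mul_eq_zero.1 this).resolve_right (W_ne_zero _ hs)
    have h2 := AnalyticOnNhd.eq_zero_or_eq_zero_of_mul_eq_zero (U := Set.univ)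
      (f := fun w : ℂ => sin (Real.pi * w))
      (g := fun w : ℂ => ∑ i ∈ range m, (A i).eval w *
        sin (Real.pi * w) ^ (m - 1 - i) * W (a₀ + i) w)
      (DifferentiableOn.analyticOnNhd (by fun_prop) isOpen_univ)
      (DifferentiableOn.analyticOnNhd (Differentiable.differentiableOn
        (Differentiable.fun_sum fun i _ => ((A i).differentiable.mul (by fun_prop)).mul
          (W_differentiable _))) isOpen_univ)
      (fun w _ => by simpa [h1] using key w) isPreconnected_univ
    rcases h2 with h2 | h2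
    · have := h2 (1 / 2) trivial
      rw [← div_eq_mul_one_div, sin_pi_div_two] at this
      exact absurd this one_ne_zero
    · intro i hi
      rcases Nat.lt_succ_iff_lt_or_eq.1 hi with hi | rfl
      · exact ih (fun w => h2 w trivial) i hi
      · exact h1

lemma exists_factor (Z : Finset ℤ) {h : ℂ → ℂ} (hh : Differentiable ℂ h) (hZ : ∀ n ∈ Z, h n = 0) :
    ∃ T : ℂ → ℂ, Differentiable ℂ T ∧ ∀ w, h w = (∏ n ∈ Z, (w - n)) * T w := by
  induction Z using Finset.induction_on generalizing h with
  | empty => exact ⟨h, hh, by simp⟩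
  | insert n Z hn ih =>
    have h1 : ∀ w, h w = (w - n) * dslope h n w := fun w => by
      have := sub_smul_dslope h n w
      rw [hZ n (mem_insert_self _ _), sub_zero, smul_eq_mul] at this
      exact this.symm
    obtain ⟨T, hT, hT'⟩ := ih (h := dslope h n) (differentiableOn_univ.1
      ((differentiableOn_dslope univ_mem).2 hh.differentiableOn)) (fun k hk => by
        have := h1 k
        rw [hZ k (mem_insert_of_mem hk)] at this
        refine (mul_eq_zero.1 this.symm).resolve_left fun e => hn ?_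
        have : k = n := by exact_mod_cast sub_eq_zero.1 e
        exact this ▸ hk)
    exact ⟨T, hT, fun w => by rw [prod_insert hn, h1, hT', mul_assoc]⟩

/-- The polynomial `∏_{|n| ≤ M} (X - n)`. -/
noncomputable def SM (M : ℕ) : ℤ[X] := ∏ n ∈ Icc (-(M : ℤ)) M, (X - C n)

lemma aeval_SM (M : ℕ) (w : ℂ) : aeval w (SM M) = ∏ n ∈ Icc (-(M : ℤ)) M, (w - n) := by
  simp [SM, map_prod]

lemma exists_E (M : ℕ) : ∃ E : ℂ → ℂ, DifferentiableOn ℂ E (ball 0 (M + 1)) ∧
    (∀ w ∈ ball (0 : ℂ) (M + 1), E w ≠ 0) ∧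
    ∀ w ∈ ball (0 : ℂ) (M + 1), sin (Real.pi * w) * E w = aeval w (SM M) := by
  obtain ⟨T, hT, hT'⟩ := exists_factor (Icc (-(M : ℤ)) M) (h := fun w => sin (Real.pi * w))
    (by fun_prop) (fun n _ => by rw [mul_comm]; exact sin_int_mul_pi n)
  simp only [← aeval_SM] at hT'
  have hpi : (Real.pi : ℂ) ≠ 0 := ofReal_ne_zero.2 Real.pi_ne_zero
  have hne : ∀ w ∈ ball (0 : ℂ) (M + 1), T w ≠ 0 := by
    intro w hw h0
    have h1 : sin (Real.pi * w) = 0 := by rw [hT', h0, mul_zero]
    obtain ⟨n, hn⟩ := sin_eq_zero_iff.1 h1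
    have h2 : w = n := mul_left_cancel₀ hpi (by rw [hn, mul_comm])
    have h3 : aeval w (SM M) = 0 := by
      rw [aeval_SM]
      refine prod_eq_zero (i := n) ?_ (by rw [h2, sub_self])
      rw [h2, mem_ball_zero_iff, Complex.norm_intCast] at hw
      have : |n| < (M : ℤ) + 1 := by exact_mod_cast hw
      rw [abs_lt] at this
      rw [mem_Icc]; omega
    have d1 := ((hasDerivAt_id w).const_mul (Real.pi : ℂ)).csin
    have d2 := (hasDerivAt_ev (SM M) w).mul (hT w).hasDerivAt
    have d3 : (fun w : ℂ => sin (Real.pi * id w)) = (fun w : ℂ => aeval w (SM M)) * T :=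
      funext hT'
    rw [d3] at d1
    have d4 := d1.unique d2
    rw [h0, h3] at d4
    have := sin_sq_add_cos_sq (Real.pi * w)
    simp only [id, mul_one, mul_zero, zero_mul, add_zero, mul_eq_zero, hpi, or_false] at d4
    simp [h1, d4] at this
  refine ⟨fun w => (T w)⁻¹, hT.differentiableOn.inv hne, fun w hw => inv_ne_zero (hne w hw),
    fun w hw => ?_⟩
  rw [hT', mul_assoc, mul_inv_cancel₀ (hne w hw), mul_one]

section parts

variable {S : ℤ[X]} {E : ℂ → ℂ} {r : ℝ} (hr : 1 < r) (hE : DifferentiableOn ℂ E (ball 0 r))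
  (hS : ∀ w ∈ ball (0 : ℂ) r, sin (Real.pi * w) * E w = aeval w S)

/-- The functions `S^j · W a · E^{a+1} = S^{j+a+1} (d/dw)^a (1 / sin (π w))`. -/
noncomputable def gfun (S : ℤ[X]) (E : ℂ → ℂ) (j a : ℕ) (w : ℂ) : ℂ :=
  aeval w S ^ j * (W a w * E w ^ (a + 1))

include hE in
lemma gfun_differentiableOn (j a : ℕ) : DifferentiableOn ℂ (gfun S E j a) (ball 0 r) := by
  have h1 : Differentiable ℂ fun w : ℂ => aeval w S := fun w => (hasDerivAt_ev S w).differentiableAt
  exact (h1.differentiableOn.pow j).mul ((W_differentiable a).differentiableOn.mul (hE.pow _))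

include hr hE hS in
lemma by_parts (Q : ℤ[X]) (j a : ℕ) :
    ∫ t in (0 : ℝ)..1, aeval (t : ℂ) Q * gfun S E j (a + 1) t =
      -∫ t in (0 : ℝ)..1, aeval (t : ℂ) (derivative Q * S + C ((j : ℤ) + a + 2) * Q * derivative S) *
        gfun S E j a t := by
  have h0 : aeval (0 : ℂ) S = 0 := by
    rw [← hS 0 (mem_ball_self (by linarith))]; simp
  have h1 : aeval (1 : ℂ) S = 0 := by
    rw [← hS 1 (by simpa using hr)]; simp
  have c1 : ∀ (P : ℤ[X]) (b : ℕ), ContinuousOn (fun t : ℝ => aeval (t : ℂ) P * gfun S E j b t)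
      (Set.uIcc 0 1) := fun P b =>
    ((continuous_ev P).comp continuous_ofReal).continuousOn.mul
      (continuousOn_ofReal hr (gfun_differentiableOn hE j b))
  have h2 := ftc (f := fun w => aeval w Q * gfun S E (j + 1) a w)
    (f' := fun w => aeval w Q * gfun S E j (a + 1) w +
      aeval w (derivative Q * S + C ((j : ℤ) + a + 2) * Q * derivative S) * gfun S E j a w)
    (fun t ht => by
      have hb := ofReal_mem_ball hr ht
      have hn := isOpen_ball.mem_nhds hb
      have e0 := (hE.differentiableAt hn).hasDerivAt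
      have e1 := (((hasDerivAt_id (t : ℂ)).const_mul (Real.pi : ℂ)).csin.mul e0)
      have e2 : HasDerivAt (fun w : ℂ => aeval w S) _ (t : ℂ) :=
        e1.congr_of_eventuallyEq (by filter_upwards [hn] with w hw using (hS w hw).symm)
      have e3 := e2.unique (hasDerivAt_ev S t)
      have e4 := (hasDerivAt_ev Q t).mul (((hasDerivAt_ev S t).pow (j + 1)).mul
        ((W_differentiable a t).hasDerivAt.mul (e0.pow (a + 1))))
      refine e4.congr_deriv ?_
      simp only [gfun, W, map_add, map_mul, ← e3, ← hS _ hb, id, Pi.mul_apply,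
        Pi.pow_apply, Nat.add_sub_cancel, map_natCast, map_ofNat]
      push_cast
      ring)
    ((c1 _ _).add (c1 _ _))
  rw [intervalIntegral.integral_add (c1 _ _).intervalIntegrable (c1 _ _).intervalIntegrable] at h2
  simp only [gfun, h0, h1, zero_pow (Nat.succ_ne_zero j), zero_mul, mul_zero, sub_zero] at h2
  exact eq_neg_of_add_eq_zero_left h2

include hr hE hS in
/-- The integrals against `gfun` as linear forms in the `ck`. -/
lemma integral_gfun (a : ℕ) : ∀ (Q : ℤ[X]) (j N : ℕ),
    derivative^[2 * N + a] (Q * S ^ (j + a + 1)) = 0 →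
    ∫ t in (0 : ℝ)..1, aeval (t : ℂ) Q * gfun S E j a t =
      (-1) ^ a * (2 * ∑ i ∈ range N, (-1) ^ i *
        (aeval (0 : ℂ) (derivative^[2 * i + a] (Q * S ^ (j + a + 1))) +
          aeval (1 : ℂ) (derivative^[2 * i + a] (Q * S ^ (j + a + 1)))) * ck (2 * i + 1)) := by
  induction a with
  | zero =>
    intro Q j N hN
    have h1 : Differentiable ℂ fun w : ℂ => aeval w Q :=
      fun w => (hasDerivAt_ev Q w).differentiableAt
    rw [pow_zero, one_mul]
    refine integral_div_sin hr (h := fun w => aeval w Q * gfun S E j 0 w)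
      (h1.differentiableOn.mul (gfun_differentiableOn hE j 0)) _ (fun w hw => ?_) N hN
    simp only [gfun, W, map_mul, map_pow, ← hS w hw]
    ring
  | succ a ih =>
    intro Q j N hN
    have e : derivative (Q * S ^ (j + (a + 1) + 1)) =
        (derivative Q * S + C ((j : ℤ) + a + 2) * Q * derivative S) * S ^ (j + a + 1) := by
      rw [derivative_mul, show j + (a + 1) + 1 = j + a + 1 + 1 by ring, derivative_pow_succ]
      simp only [map_add, map_natCast, map_one, map_ofNat, Nat.cast_add, Nat.cast_one]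
      ring
    have e2 : ∀ i, derivative^[2 * i + (a + 1)] (Q * S ^ (j + (a + 1) + 1)) =
        derivative^[2 * i + a] ((derivative Q * S + C ((j : ℤ) + a + 2) * Q * derivative S) *
          S ^ (j + a + 1)) := fun i => by
      rw [← e, ← add_assoc, Function.iterate_succ_apply]
    rw [by_parts hr hE hS, ih _ j N (by rw [← e2]; exact hN)]
    simp only [e2]
    ring

end parts

end Pool.Agent.P.MP_a89d6d_nt
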