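import Mathlib
import Pool.Agent.P.MP_a89d6d_nt.Holonomy
import Pool.Agent.P.MP_a89d6d_nt.Sine

/-!
The denominators of the numbers `θ (2^k - 1) (k+s)! ζ(k) / (2π)^k`, `k` odd.
-/

namespace Pool.Agent.P.MP_a89d6d_nt

open Complex Metric Filter Topology Finset Polynomial

lemma aeval_iterate_derivative_int (U : ℤ[X]) (b : ℕ) (x : ℤ) :
    ∃ z : ℤ, aeval (x : ℂ) (derivative^[b] U) = b.factorial * z := by
  refine ⟨(hasseDeriv b U).eval x, ?_⟩
  rw [← factorial_smul_hasseDeriv, LinearMap.smul_apply, nsmul_eq_mul, map_mul, map_natCast]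
  congr 1
  exact aeval_algebraMap_apply_eq_algebraMap_eval x _

lemma aeval_iterate_derivative_zero (Q S : ℤ[X]) (K b : ℕ) (hb : b < K) (x : ℂ)
    (hx : aeval x S = 0) : aeval x (derivative^[b] (Q * S ^ K)) = 0 := by
  obtain ⟨V, hV⟩ := pow_sub_dvd_iterate_derivative_of_pow_dvd b (Dvd.intro_left Q rfl : S ^ K ∣ _)
  rw [hV, map_mul, map_pow, hx, zero_pow (by omega), zero_mul]

/-- Integrality of the moments. -/
lemma mom_int {S : ℤ[X]} {E : ℂ → ℂ} {r : ℝ} (hr : 1 < r) (hE : DifferentiableOn ℂ E (ball 0 r))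
    (hS : ∀ w ∈ ball (0 : ℂ) r, sin (Real.pi * w) * E w = aeval w S) (θ : ℂ) (s k₀ : ℕ) (L : ℕ → ℕ)
    (hL : ∀ n k, Odd k → k₀ ≤ k → k ≤ n → ∃ z : ℤ, (L n : ℂ) * θ * ((k + s).factorial * ck k) = z)
    (e a : ℕ) (he : k₀ ≤ e) (ha : s + 1 ≤ a) (j n : ℕ) (hn : j + (e + a + 1) * S.natDegree ≤ n) :
    ∃ z : ℤ, (L n : ℂ) * θ * mom (gfun S E e a) j = z := by
  have h0 : aeval (0 : ℂ) S = 0 := by
    rw [← hS 0 (mem_ball_self (by linarith))]; simp
  have h1 : aeval (1 : ℂ) S = 0 := by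
    rw [← hS 1 (by simpa using hr)]; simp
  set U : ℤ[X] := X ^ j * S ^ (e + a + 1) with hU
  have hdeg : U.natDegree ≤ n := by
    refine natDegree_mul_le.trans (le_trans (add_le_add ?_ natDegree_pow_le) hn)
    simp
  have h2 := integral_gfun hr hE hS a (X ^ j) e (n + 1) (iterate_derivative_eq_zero (by
    rw [← hU]; omega))
  simp only [map_pow, aeval_X, ← hU] at h2
  have h3 : ∀ i : ℕ, ∃ z : ℤ, (L n : ℂ) * θ * ((aeval (0 : ℂ) (derivative^[2 * i + a] U) +
      aeval (1 : ℂ) (derivative^[2 * i + a] U)) * ck (2 * i + 1)) = z := by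
    intro i
    by_cases c1 : n < 2 * i + a
    · exact ⟨0, by rw [iterate_derivative_eq_zero (by omega)]; simp⟩
    by_cases c2 : 2 * i + a < e + a + 1
    · exact ⟨0, by rw [aeval_iterate_derivative_zero _ _ _ _ c2 _ h0,
        aeval_iterate_derivative_zero _ _ _ _ c2 _ h1]; simp⟩
    obtain ⟨z, hz⟩ := hL n (2 * i + 1) ⟨i, rfl⟩ (by omega) (by omega)
    obtain ⟨z0, hz0⟩ := aeval_iterate_derivative_int U (2 * i + a) 0
    obtain ⟨z1, hz1⟩ := aeval_iterate_derivative_int U (2 * i + a) 1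
    obtain ⟨y, hy⟩ := Nat.factorial_dvd_factorial (show 2 * i + 1 + s ≤ 2 * i + a by omega)
    rw [Int.cast_zero] at hz0
    rw [Int.cast_one] at hz1
    refine ⟨z * y * (z0 + z1), ?_⟩
    rw [hz0, hz1, hy]
    push_cast
    rw [← hz]
    ring
  choose Z hZ using h3
  refine ⟨(-1) ^ a * (2 * ∑ i ∈ range (n + 1), (-1) ^ i * Z i), ?_⟩
  rw [mom, h2]
  push_cast
  simp only [← hZ, mul_sum]
  exact sum_congr rfl fun i _ => by ring

theorem no_small_denominators (θ : ℂ) (hθ : θ ≠ 0) (s k₀ : ℕ) (C : ℝ) (hC : |C| < 16) (L : ℕ → ℕ)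
    (hL0 : ∀ n, 0 < L n) (hLC : ∀ᶠ n in atTop, (L n : ℝ) ≤ C ^ n)
    (hL : ∀ n k, Odd k → k₀ ≤ k → k ≤ n →
      ∃ z : ℤ, (L n : ℂ) * θ * ((k + s).factorial * ck k) = z) : False := by
  obtain ⟨M, m, hM, h⟩ := holonomy (max |C| 1) (max_lt hC (by norm_num)) (le_max_right _ _)
  obtain ⟨N, hN⟩ := exists_nat_gt M
  obtain ⟨E, hE, hE0, hS⟩ := exists_E N
  have hr : (1 : ℝ) < N + 1 := by linarith
  obtain ⟨A, hA0, hA⟩ := h (N + 1) (by linarith)
    (fun i => gfun (SM N) E (k₀ + (m - 1 - i)) (s + 1 + i))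
    (fun i => gfun_differentiableOn hE _ _) θ hθ ((k₀ + m + s + 1) * (SM N).natDegree) L hL0
    (by
      filter_upwards [hLC] with n hn
      refine hn.trans ((le_abs_self _).trans ?_)
      rw [abs_pow]
      exact pow_le_pow_left₀ (abs_nonneg _) (le_max_left _ _) n)
    (fun i j n hn => mom_int hr hE hS θ s k₀ L hL _ _ (by omega) (by omega) j n (by
      have := i.2
      rwa [show k₀ + (m - 1 - i) + (s + 1 + i) + 1 = k₀ + m + s + 1 by omega]))
  apply hA0
  let A' : ℕ → ℂ[X] := fun i => if hi : i < m then A ⟨i, hi⟩ else 0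
  let H : ℂ → ℂ := fun w => ∑ i ∈ range m, (A' i).eval w * sin (Real.pi * w) ^ (m - 1 - i) *
    W (s + 1 + i) w
  have hHd : Differentiable ℂ H := Differentiable.fun_sum fun i _ =>
    ((A' i).differentiable.mul (by fun_prop)).mul (W_differentiable _)
  have hH0 : ∀ t ∈ Set.Ioo (0 : ℝ) 1, H t = 0 := by
    intro t ht
    have hb : (t : ℂ) ∈ ball (0 : ℂ) (N + 1) := ofReal_mem_ball hr
      (by rw [Set.uIcc_of_le zero_le_one]; exact Set.Ioo_subset_Icc_self ht)
    have hs : sin (Real.pi * (t : ℂ)) ≠ 0 := by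
      rw [← ofReal_mul, ← ofReal_sin, ofReal_ne_zero]
      exact (Real.sin_pos_of_pos_of_lt_pi (mul_pos Real.pi_pos ht.1)
        (mul_lt_of_lt_one_right Real.pi_pos ht.2)).ne'
    have e1 : sin (Real.pi * (t : ℂ)) ^ k₀ * E t ^ (k₀ + m + s + 1) * H t = 0 := by
      rw [← hA t ht]
      simp only [H, mul_sum]
      rw [Finset.sum_range]
      refine sum_congr rfl fun i _ => ?_
      have := i.2
      simp only [A', i.2, dif_pos, gfun, ← hS _ hb]
      rw [show k₀ + m + s + 1 = k₀ + (m - 1 - i) + (s + 1 + i + 1) by omega]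
      ring
    exact (mul_eq_zero.1 e1).resolve_left
      (mul_ne_zero (pow_ne_zero _ hs) (pow_ne_zero _ (hE0 _ hb)))
  have hH : Set.EqOn H 0 Set.univ := by
    apply AnalyticOnNhd.eqOn_zero_of_preconnected_of_frequently_eq_zero
      (hHd.differentiableOn.analyticOnNhd isOpen_univ) isPreconnected_univ (Set.mem_univ (0 : ℂ))
    have t1 : Tendsto (fun t : ℝ => (t : ℂ)) (𝓝[>] 0) (𝓝[≠] 0) := by
      apply tendsto_nhdsWithin_iff.2
      refine ⟨?_, ?_⟩
      · have := continuous_ofReal.tendsto 0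
        rw [ofReal_zero] at this
        exact this.mono_left nhdsWithin_le_nhds
      · filter_upwards [self_mem_nhdsWithin] with t ht
        simpa using (ne_of_gt ht)
    apply t1.frequently
    apply Eventually.frequently
    filter_upwards [Ioo_mem_nhdsGT (show (0 : ℝ) < 1 by norm_num)] with t ht using hH0 t ht
  funext i
  have := indep (s + 1) m A' (fun w => hH (Set.mem_univ w)) i i.2
  simpa [A'] using this

end Pool.Agent.P.MP_a89d6d_nt
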